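import Pool.Agent.H466.HN.Stm5

/-!
# Points where the backward heat flow is large
-/

set_option autoImplicit false

namespace Pool.Agent.H914.HN

open Complex MeasureTheory Set Filter Topology
open scoped ComplexConjugate
open Pool.Agent.H466.HF Pool.Agent.H466.LD Pool.Agent.H466.HP Pool.Agent.H466.HN
open Pool.Agent.H862.VK (Yz)

/-- the inequality between the profile and the Gaussian -/
lemma pf_ineq {a σ : ℝ} (ha : 1 ≤ a) : pf |a + σ| - σ ^ 2 / 4 ≤ a / 2 - (σ - 1) ^ 2 / 8 := by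
  unfold pf
  split_ifs with h
  · rw [sq_abs]
    obtain ⟨h1, h2⟩ := abs_le.mp h
    nlinarith [mul_nonneg (sub_nonneg.mpr ha) (sub_nonneg.mpr h2), mul_nonneg
      (by linarith : 0 ≤ 1 - (a + σ)) (by linarith : 0 ≤ 1 + (a + σ))]
  · push Not at h
    rcases le_or_gt 0 (a + σ) with h1 | h1
    · rw [abs_of_nonneg h1]
      nlinarith [sq_nonneg (σ - 1)]
    · rw [abs_of_neg h1]
      nlinarith [sq_nonneg (σ + 3)]

lemma gauss_int {b : ℝ} (hb : 0 < b) (c : ℝ) :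
    Integrable (fun s : ℝ => Real.exp (-(s - c) ^ 2 / b)) ∧
      ∫ s : ℝ, Real.exp (-(s - c) ^ 2 / b) = Real.sqrt (Real.pi * b) := by
  have e : (fun s : ℝ => Real.exp (-(s - c) ^ 2 / b)) =
      fun s => (fun u : ℝ => Real.exp (-(1 / b) * u ^ 2)) (s - c) := by
    funext s
    beta_reduce
    congr 1
    ring
  have h1 : Integrable (fun u : ℝ => Real.exp (-(1 / b) * u ^ 2)) :=
    integrable_exp_neg_mul_sq (by positivity)
  constructor
  · rw [e]
    exact h1.comp_sub_right c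
  · rw [e, integral_sub_right_eq_self (fun u : ℝ => Real.exp (-(1 / b) * u ^ 2)) c,
      integral_gaussian]
    congr 1
    field_simp

/-- lower bound for the function in the cone -/
lemma low_cone {T t A1 κ μ x y : ℝ} (hT : 10 ≤ T) (hA1 : 0 < A1) (hκ0 : 0 < κ)
    (hκ : κ ≤ 1 / 30) (R : Rg T t A1 (1 / κ) κ) (hμ : 0 < μ)
    (hD1 : A1 / Real.log T ≤ μ * Real.log T) (hD2 : 30 * (μ * Real.log T) ≤ 4)
    (hx1 : μ * Real.log T ≤ x) (hx2 : x ≤ 30 * (μ * Real.log T))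
    (hy : |y - t| ≤ 30 * (μ * Real.log T)) :
    0 < Gm T t μ ∧ Gm T t μ * Real.exp (Real.log T * x / 2 - 59 * κ * (μ * Real.log T ^ 2)) ≤
      ‖LL gk 0 ((x : ℂ) + (y : ℂ) * I)‖ := by
  set L := Real.log T with hL
  have hLp : 0 < L := by rw [hL]; exact Real.log_pos (by linarith)
  set Δ := μ * L with hΔ
  have hΔp : 0 < Δ := by positivity
  have hy0p : 0 < A1 / L := by positivity
  have hM : 1 ≤ 1 / κ := by
    rw [le_div_iff₀ hκ0]
    linarith
  have hcone : ∀ u v : ℝ, Δ ≤ u → u ≤ 30 * Δ → |v - t| ≤ 30 * Δ →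
      Yz ((u : ℂ) + (v : ℂ) * I) ≠ 0 ∧
        ‖P ((u : ℂ) + (v : ℂ) * I) - ((L / 2 : ℝ) : ℂ)‖ ≤ κ * L := by
    intro u v hu1 hu2 hv
    have hmem : (u : ℂ) + (v : ℂ) * I ∈ Kt t (A1 / L) 4 (1 / κ) := by
      refine ⟨by simp; linarith, by simp; linarith, ?_⟩
      have h1 : |v - t| ≤ 1 / κ * u := by
        have h2 : 30 ≤ 1 / κ := by
          rw [le_div_iff₀ hκ0]
          linarith
        nlinarith
      simpa using h1
    exact ⟨cone_ne hy0p hM R.cf hmem, R.pb _ hmem⟩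
  have ht0 : |t - t| ≤ 30 * Δ := by
    rw [sub_self, abs_zero]
    positivity
  have hx30 : Δ ≤ 30 * Δ := by linarith
  have hne : Yz ((Δ : ℂ) + (t : ℂ) * I) ≠ 0 := (hcone Δ t le_rfl hx30 ht0).1
  have hF0 : 0 < ‖LL gk 0 ((Δ : ℂ) + (t : ℂ) * I)‖ := norm_pos_iff.2 (F_ne hne)
  have s1 : ∀ u ∈ uIcc x Δ, Yz ((u : ℂ) + (t : ℂ) * I) ≠ 0 ∧
      ‖P ((u : ℂ) + (t : ℂ) * I) - ((L / 2 : ℝ) : ℂ)‖ ≤ κ * L := by
    intro u hu
    rw [uIcc_of_ge hx1] at hu
    exact hcone u t hu.1 (hu.2.trans hx2) ht0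
  have h1 := hor s1
  have s2 : ∀ v ∈ uIcc y t, Yz ((x : ℂ) + (v : ℂ) * I) ≠ 0 ∧
      ‖P ((x : ℂ) + (v : ℂ) * I) - ((L / 2 : ℝ) : ℂ)‖ ≤ κ * L := by
    intro v hv
    have hv1 : |v - t| ≤ |y - t| := by
      rw [uIcc_comm] at hv
      exact Set.abs_sub_left_of_mem_uIcc hv
    exact hcone x v hx1 hx2 (hv1.trans hy)
  have h2 := ver s2
  have a1 : |Δ - x| ≤ 29 * Δ := by
    rw [abs_sub_comm, abs_of_nonneg (by linarith)]
    linarith
  have a2 : |t - y| ≤ 30 * Δ := by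
    rw [abs_sub_comm]
    exact hy
  have h3 : ‖LL gk 0 ((Δ : ℂ) + (t : ℂ) * I)‖ ≤ ‖LL gk 0 ((x : ℂ) + (y : ℂ) * I)‖ *
      Real.exp (L / 2 * (Δ - x) + 59 * κ * (L * Δ)) := by
    refine h1.trans ((mul_le_mul_of_nonneg_right h2 (Real.exp_pos _).le).trans ?_)
    rw [mul_assoc, ← Real.exp_add]
    apply mul_le_mul_of_nonneg_left _ (norm_nonneg _)
    apply Real.exp_le_exp.mpr
    have b1 : κ * L * |Δ - x| ≤ κ * L * (29 * Δ) := mul_le_mul_of_nonneg_left a1 (by positivity)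
    have b2 : κ * L * |t - y| ≤ κ * L * (30 * Δ) := mul_le_mul_of_nonneg_left a2 (by positivity)
    nlinarith
  refine ⟨mul_pos hF0 (Real.exp_pos _), ?_⟩
  have h4 := mul_le_mul_of_nonneg_right h3
    (Real.exp_pos (L * x / 2 - 59 * κ * (L * Δ) - L * Δ / 2)).le
  have e1 : L * Δ = μ * L ^ 2 := by rw [hΔ]; ring
  unfold Gm
  rw [← hL, ← hΔ, mul_assoc, ← Real.exp_add]
  rw [mul_assoc ‖LL gk 0 ((x : ℂ) + (y : ℂ) * I)‖, ← Real.exp_add] at h4
  have e2 : L / 2 * (Δ - x) + 59 * κ * (L * Δ) + (L * x / 2 - 59 * κ * (L * Δ) - L * Δ / 2) = 0 := by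
    ring
  rw [e2, Real.exp_zero, mul_one] at h4
  refine le_trans (le_of_eq ?_) h4
  congr 2
  rw [← e1]
  ring

/-- symmetry -/
lemma H_sym (lam : ℝ) (u y : ℝ) :
    ‖LL gk lam ((u : ℂ) + (y : ℂ) * I)‖ = ‖LL gk lam ((|u| : ℝ) + (y : ℂ) * I)‖ := by
  rcases le_or_gt 0 u with h | h
  · rw [abs_of_nonneg h]
  · rw [abs_of_neg h]
    have e : (((-u : ℝ) : ℂ) + (y : ℂ) * I) = -conj ((u : ℂ) + (y : ℂ) * I) := by
      simp only [map_add, map_mul, conj_ofReal, conj_I, ofReal_neg]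
      ring
    rw [e, Flam_fe, Complex.norm_conj]

/-- the exponent outside the window -/
lemma expo {L Δ A μ x s Kc e : ℝ} (hLp : 0 < L) (hμ : 0 < μ) (hΔ : Δ = μ * L)
    (hA : A = μ * L ^ 2) (hx1 : Δ ≤ x) (hx2 : x ≤ 30 * Δ) (he : 0 < e) (he' : e ≤ 1 / 1000000)
    (hKc : 0 < Kc) (hK : Kc * μ ≤ e / 2000) (hs : Δ ^ 2 / 16 ≤ (s - Δ) ^ 2) :
    A * pf (|x + s| / Δ) + e * (A + L * |x + s|) + Kc * |x + s| ^ 2 + -s ^ 2 / (4 * μ) ≤
      L * x / 2 + (34 * e * A - A / 700 + -(s - Δ) ^ 2 / (10 * μ)) := by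
  have hΔp : 0 < Δ := by rw [hΔ]; positivity
  have hAp : 0 < A := by rw [hA]; positivity
  have hAL : A = L * Δ := by rw [hA, hΔ]; ring
  have hAΔ : A * μ = Δ ^ 2 := by rw [hA, hΔ]; ring
  -- the profile
  have p1 := pf_ineq (a := x / Δ) (σ := s / Δ) (by rw [le_div_iff₀ hΔp]; linarith)
  have p2 : |x / Δ + s / Δ| = |x + s| / Δ := by
    rw [← add_div, abs_div, abs_of_pos hΔp]
  rw [p2] at p1
  have p3 := mul_le_mul_of_nonneg_left p1 hAp.le
  have p4 : A * (pf (|x + s| / Δ) - (s / Δ) ^ 2 / 4) =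
      A * pf (|x + s| / Δ) + -s ^ 2 / (4 * μ) := by
    have h1 : A * (s / Δ) ^ 2 = s ^ 2 / μ := by
      rw [div_pow, ← hAΔ]
      field_simp
    have h2 : -s ^ 2 / (4 * μ) = -(s ^ 2 / μ) / 4 := by
      field_simp
    rw [h2, ← h1]
    ring
  set w := (s - Δ) ^ 2 / μ with hw
  have hw0 : 0 ≤ w := by positivity
  have hwμ : (s - Δ) ^ 2 = μ * w := by
    rw [hw]
    field_simp
  have p5 : A * (x / Δ / 2 - (s / Δ - 1) ^ 2 / 8) = L * x / 2 - w / 8 := by
    have e1 : A * (x / Δ) = L * x := by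
      rw [hAL]
      field_simp
    have e2 : A * (s / Δ - 1) ^ 2 = w := by
      have : s / Δ - 1 = (s - Δ) / Δ := by field_simp
      rw [this, div_pow, ← hAΔ, hw]
      field_simp
    calc A * (x / Δ / 2 - (s / Δ - 1) ^ 2 / 8) =
        A * (x / Δ) / 2 - A * (s / Δ - 1) ^ 2 / 8 := by ring
      _ = _ := by rw [e1, e2]
  rw [p4, p5] at p3
  have hu2 : A / 16 ≤ w := by
    rw [hw, le_div_iff₀ hμ]
    linarith
  -- the errors
  have q1 : |x + s| ≤ 31 * Δ + |s - Δ| := by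
    have e1 : x + s = (x + Δ) + (s - Δ) := by ring
    have e2 : |x + Δ| ≤ 31 * Δ := by
      rw [abs_of_nonneg (by linarith)]
      linarith
    calc |x + s| = |(x + Δ) + (s - Δ)| := by rw [← e1]
      _ ≤ |x + Δ| + |s - Δ| := abs_add_le _ _
      _ ≤ _ := by linarith
  have q2 : L * |s - Δ| ≤ A + w := by
    have e1 : w * A = (L * |s - Δ|) ^ 2 := by
      rw [mul_pow, sq_abs, hwμ, hA]
      ring
    have e2 : 0 ≤ L * |s - Δ| := by positivity
    have e3 : (L * |s - Δ|) ^ 2 ≤ (A + w) ^ 2 := by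
      rw [← e1]
      have : 0 ≤ A * w := by positivity
      have e4 : (A + w) ^ 2 = A ^ 2 + 2 * (A * w) + w ^ 2 := by ring
      rw [e4]
      have : w * A = A * w := mul_comm _ _
      have := sq_nonneg A
      have := sq_nonneg w
      linarith
    exact (sq_le_sq₀ e2 (by positivity)).1 e3
  have q3 : L * |x + s| ≤ 32 * A + w := by
    have h1 := mul_le_mul_of_nonneg_left q1 hLp.le
    have e1 : L * (31 * Δ + |s - Δ|) = 31 * A + L * |s - Δ| := by rw [hAL]; ring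
    rw [e1] at h1
    linarith
  have q4 : |x + s| ^ 2 ≤ 2 * (31 * Δ) ^ 2 + 2 * (s - Δ) ^ 2 := by
    have e1 : |x + s| ^ 2 ≤ (31 * Δ + |s - Δ|) ^ 2 :=
      pow_le_pow_left₀ (abs_nonneg _) q1 2
    have e2 : |s - Δ| ^ 2 = (s - Δ) ^ 2 := sq_abs _
    have e3 := sq_nonneg (31 * Δ - |s - Δ|)
    have e4 : (31 * Δ + |s - Δ|) ^ 2 = 2 * (31 * Δ) ^ 2 + 2 * |s - Δ| ^ 2 -
      (31 * Δ - |s - Δ|) ^ 2 := by ring
    rw [e4, e2] at e1
    linarith
  have q5 : Kc * |x + s| ^ 2 ≤ e * A + e * w := by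
    have e1 : Kc * (2 * (31 * Δ) ^ 2 + 2 * (s - Δ) ^ 2) =
        Kc * μ * (1922 * A + 2 * w) := by
      have e0 : (31 * Δ) ^ 2 = 961 * (A * μ) := by rw [hAΔ]; ring
      rw [hwμ, e0]
      ring
    have e2 : Kc * μ * (1922 * A + 2 * w) ≤ e / 2000 * (1922 * A + 2 * w) :=
      mul_le_mul_of_nonneg_right hK (by positivity)
    have e3 := mul_le_mul_of_nonneg_left q4 hKc.le
    have e4 : 0 ≤ e * A := by positivity
    have e5 : 0 ≤ e * w := by positivity
    rw [e1] at e3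
    have e6 : e / 2000 * (1922 * A + 2 * w) = 1922 / 2000 * (e * A) + 2 / 2000 * (e * w) := by ring
    rw [e6] at e2
    linarith
  have q6 : e * (A + L * |x + s|) ≤ e * (33 * A + w) :=
    mul_le_mul_of_nonneg_left (by linarith) he.le
  have q7 : -(s - Δ) ^ 2 / (10 * μ) = -(w / 10) := by
    rw [hw]
    field_simp
  rw [q7]
  have q8 : e * w ≤ 1 / 1000000 * w := mul_le_mul_of_nonneg_right he' hw0
  have q9 : e * (33 * A + w) = 33 * (e * A) + e * w := by ring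
  have q10 : 34 * e * A = 34 * (e * A) := by ring
  rw [q10]
  rw [q9] at q6
  linarith

/-- the exponent in the window -/
lemma expo2 {L Δ A μ x s η η1 : ℝ} (hμ : 0 < μ) (hΔ : Δ = μ * L)
    (hA : A = μ * L ^ 2) (hη : η1 ≤ η) :
    L * (x + s) / 2 - (1 / 4 + η) * A + -s ^ 2 / (4 * μ) ≤
      L * x / 2 + (-(η1 * A) + -(s - Δ) ^ 2 / (4 * μ)) := by
  have hAp : 0 ≤ A := by rw [hA]; positivity
  have e1 : -(s - Δ) ^ 2 / (4 * μ) = -s ^ 2 / (4 * μ) + L * s / 2 - A / 4 := by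
    rw [hA, hΔ]
    field_simp
    ring
  rw [e1]
  have : η1 * A ≤ η * A := mul_le_mul_of_nonneg_right hη hAp
  linarith

theorem lh (h1 : S_UH) (h2 : S_FORW) : S_LH := by
  obtain ⟨δ, Kc, hδ, hKc, hUH⟩ := h1
  refine ⟨min δ (1 / 30), lt_min hδ (by norm_num), fun η hη => ?_⟩
  obtain ⟨η1, hη1p, hη1l, hη1η⟩ : ∃ η1 : ℝ, 0 < η1 ∧ η1 ≤ 1 / 1000 ∧ η1 ≤ η :=
    ⟨min η (1 / 1000), lt_min hη (by norm_num), min_le_right _ _, min_le_left _ _⟩
  obtain ⟨κ0, hκ0, hUH⟩ := hUH (η1 / 1000) (by positivity)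
  refine ⟨min κ0 (η1 / 1000), lt_min hκ0 (by positivity), fun κ hκ hκle A1 hA1 => ?_⟩
  obtain ⟨A0, T0, hA0, hT0, hUH⟩ := hUH κ hκ (hκle.trans (min_le_left _ _)) A1 hA1
  have hκη : κ ≤ η1 / 1000 := hκle.trans (min_le_right _ _)
  refine ⟨max A0 (max A1 (2 / η1)), max T0 (Real.exp (2000 * δ * Kc / (η1 / 1000) + 1)),
    hA0.trans (le_max_left _ _), hT0.trans (le_max_left _ _), ?_⟩
  intro T t μ hT ht1 ht2 R hμ hA hδ' x y hx1 hx2 hy
  have hTT0 : T0 ≤ T := (le_max_left _ _).trans hT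
  have hT10 : 10 ≤ T := hT0.trans hTT0
  have hTe : Real.exp (2000 * δ * Kc / (η1 / 1000) + 1) ≤ T := (le_max_right _ _).trans hT
  have hAA0 : A0 ≤ μ * Real.log T ^ 2 := (le_max_left _ _).trans hA
  have hAA1 : A1 ≤ μ * Real.log T ^ 2 := ((le_max_left _ _).trans (le_max_right _ _)).trans hA
  have hAη : 2 / η1 ≤ μ * Real.log T ^ 2 := ((le_max_right _ _).trans (le_max_right _ _)).trans hA
  have hδ1 : μ * Real.log T ≤ δ := hδ'.trans (min_le_left _ _)
  have hδ2 : μ * Real.log T ≤ 1 / 30 := hδ'.trans (min_le_right _ _)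
  have hUH := hUH T t μ hTT0 ht1 ht2 R hμ hAA0 hδ1
  have hLL : 2000 * δ * Kc / (η1 / 1000) + 1 ≤ Real.log T := by
    rwa [Real.le_log_iff_exp_le (by linarith)]
  have hLp : 0 < Real.log T := Real.log_pos (by linarith)
  have hcone := low_cone hT10 (by linarith) hκ (by linarith) R hμ (by
    rw [div_le_iff₀ hLp]
    calc A1 ≤ μ * Real.log T ^ 2 := hAA1
      _ = μ * Real.log T * Real.log T := by ring) (by linarith) hx1 hx2 hy
  obtain ⟨hG, hlow⟩ := hcone
  by_contra hcon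
  push Not at hcon
  generalize hLdef : Real.log T = L at *
  generalize hΔ : μ * L = Δ at *
  generalize hAdef : μ * L ^ 2 = A at *
  generalize hGdef : Gm T t μ = G at *
  have hΔp : 0 < Δ := by rw [← hΔ]; positivity
  have hAp : 0 < A := by rw [← hAdef]; positivity
  -- the small quantities
  have hKμ : Kc * μ ≤ η1 / 1000 / 2000 := by
    have e1 : Kc * μ * L ≤ Kc * δ := by
      calc Kc * μ * L = Kc * (μ * L) := by ring
        _ ≤ Kc * δ := by rw [hΔ]; exact mul_le_mul_of_nonneg_left hδ1 hKc.le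
    have e2 : 2000 * δ * Kc / (η1 / 1000) ≤ L := by linarith
    rw [div_le_iff₀ (by positivity)] at e2
    have e3 : Kc * μ * L ≤ η1 / 1000 / 2000 * L := by
      have : η1 / 1000 / 2000 * L = L * (η1 / 1000) / 2000 := by ring
      rw [this, le_div_iff₀ (by norm_num)]
      linarith
    exact le_of_mul_le_mul_right e3 hLp
  -- the majorant
  have hbound : ∀ s : ℝ, ‖LL gk (-μ) (((x : ℂ) + (y : ℂ) * I) + s)‖ *
      Real.exp (-s ^ 2 / (4 * μ)) ≤
      G * Real.exp (L * x / 2) * (Real.exp (-(η1 * A)) * Real.exp (-(s - Δ) ^ 2 / (4 * μ)) +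
        Real.exp (34 * (η1 / 1000) * A - A / 700) * Real.exp (-(s - Δ) ^ 2 / (10 * μ))) := by
    intro s
    have ez : ((x : ℂ) + (y : ℂ) * I) + s = ((x + s : ℝ) : ℂ) + (y : ℂ) * I := by
      push_cast; ring
    rw [ez, mul_add]
    by_cases hs : 3 / 4 * Δ ≤ s ∧ s ≤ 5 / 4 * Δ
    · have h3 := (hcon s hs.1 hs.2).le
      have h4 : G * Real.exp (L * (x + s) / 2 - (1 / 4 + η) * A) *
          Real.exp (-s ^ 2 / (4 * μ)) ≤
          G * Real.exp (L * x / 2) * (Real.exp (-(η1 * A)) *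
            Real.exp (-(s - Δ) ^ 2 / (4 * μ))) := by
        rw [mul_assoc, mul_assoc, ← Real.exp_add, ← Real.exp_add, ← Real.exp_add]
        apply mul_le_mul_of_nonneg_left _ hG.le
        apply Real.exp_le_exp.mpr
        exact expo2 hμ hΔ.symm hAdef.symm hη1η
      have h5 : 0 ≤ G * Real.exp (L * x / 2) * (Real.exp (34 * (η1 / 1000) * A - A / 700) *
          Real.exp (-(s - Δ) ^ 2 / (10 * μ))) := by positivity
      have h6 := mul_le_mul_of_nonneg_right h3 (Real.exp_pos (-s ^ 2 / (4 * μ))).le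
      linarith
    · have hu : Δ ^ 2 / 16 ≤ (s - Δ) ^ 2 := by
        have e0 : Δ ^ 2 / 16 = (Δ / 4) ^ 2 := by ring
        rw [e0]
        rw [not_and_or] at hs
        rcases hs with hs | hs
        · push Not at hs
          have e1 : (s - Δ) ^ 2 = (Δ - s) ^ 2 := by ring
          rw [e1]
          exact pow_le_pow_left₀ (by positivity) (by linarith) 2
        · push Not at hs
          exact pow_le_pow_left₀ (by positivity) (by linarith) 2
      have h3 := hUH |x + s| y (abs_nonneg _) (hy.trans (by linarith))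
      rw [H_sym]
      have h4 : G * Real.exp (A * pf (|x + s| / Δ) + η1 / 1000 * (A + L * |x + s|) +
          Kc * |x + s| ^ 2) * Real.exp (-s ^ 2 / (4 * μ)) ≤
          G * Real.exp (L * x / 2) * (Real.exp (34 * (η1 / 1000) * A - A / 700) *
            Real.exp (-(s - Δ) ^ 2 / (10 * μ))) := by
        rw [mul_assoc, mul_assoc, ← Real.exp_add, ← Real.exp_add, ← Real.exp_add]
        apply mul_le_mul_of_nonneg_left _ hG.le
        apply Real.exp_le_exp.mpr
        exact expo hLp hμ hΔ.symm hAdef.symm hx1 hx2 (by positivity) (by linarith) hKc hKμ hu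
      have h5 : 0 ≤ G * Real.exp (L * x / 2) * (Real.exp (-(η1 * A)) *
          Real.exp (-(s - Δ) ^ 2 / (4 * μ))) := by positivity
      have h6 := mul_le_mul_of_nonneg_right h3 (Real.exp_pos (-s ^ 2 / (4 * μ))).le
      linarith
  -- integrate
  obtain ⟨i1, i2⟩ := gauss_int (by positivity : 0 < 4 * μ) Δ
  obtain ⟨j1, j2⟩ := gauss_int (by positivity : 0 < 10 * μ) Δ
  have hint : ∫ s : ℝ, ‖LL gk (-μ) (((x : ℂ) + (y : ℂ) * I) + s)‖ *
      Real.exp (-s ^ 2 / (4 * μ)) ≤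
      G * Real.exp (L * x / 2) * (Real.exp (-(η1 * A)) * Real.sqrt (Real.pi * (4 * μ)) +
        Real.exp (34 * (η1 / 1000) * A - A / 700) * Real.sqrt (Real.pi * (10 * μ))) := by
    rw [← i2, ← j2, ← integral_const_mul, ← integral_const_mul, ← integral_add
      (i1.const_mul _) (j1.const_mul _), ← integral_const_mul]
    refine integral_mono_of_nonneg (Eventually.of_forall fun s => by positivity)
      (((i1.const_mul _).add (j1.const_mul _)).const_mul _) (Eventually.of_forall hbound)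
  have hf := (h2 μ hμ ((x : ℂ) + (y : ℂ) * I)).trans hint
  have hS : Real.sqrt (Real.pi * (10 * μ)) ≤ 2 * Real.sqrt (Real.pi * (4 * μ)) := by
    have e1 : 2 * Real.sqrt (Real.pi * (4 * μ)) = Real.sqrt (4 * (Real.pi * (4 * μ))) := by
      rw [Real.sqrt_mul (by norm_num : (0 : ℝ) ≤ 4)]
      congr 1
      rw [show (4 : ℝ) = 2 ^ 2 by norm_num]
      simp
    rw [e1]
    apply Real.sqrt_le_sqrt
    have := mul_pos Real.pi_pos hμ
    linarith
  have hSp : 0 < Real.sqrt (Real.pi * (4 * μ)) := Real.sqrt_pos.mpr (by positivity)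
  generalize Real.sqrt (Real.pi * (4 * μ)) = S at *
  generalize Real.sqrt (Real.pi * (10 * μ)) = S' at *
  have g1 : S * (G * Real.exp (L * x / 2 - 59 * κ * A)) ≤
      G * Real.exp (L * x / 2) * (Real.exp (-(η1 * A)) * S +
        Real.exp (34 * (η1 / 1000) * A - A / 700) * (2 * S)) := by
    refine (mul_le_mul_of_nonneg_left hlow hSp.le).trans (hf.trans ?_)
    apply mul_le_mul_of_nonneg_left _ (by positivity)
    have := mul_le_mul_of_nonneg_left hS (Real.exp_pos (34 * (η1 / 1000) * A - A / 700)).le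
    linarith
  have g2 : Real.exp (-(59 * κ * A)) ≤ 3 * Real.exp (-(η1 * A)) := by
    have e1 : S * (G * Real.exp (L * x / 2 - 59 * κ * A)) =
        G * Real.exp (L * x / 2) * (S * Real.exp (-(59 * κ * A))) := by
      rw [sub_eq_add_neg, Real.exp_add]
      ring
    rw [e1] at g1
    have g3 := le_of_mul_le_mul_left g1 (by positivity)
    have e2 : Real.exp (34 * (η1 / 1000) * A - A / 700) ≤ Real.exp (-(η1 * A)) := by
      apply Real.exp_le_exp.mpr
      have : η1 * A ≤ 1 / 1000 * A := mul_le_mul_of_nonneg_right hη1l hAp.le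
      linarith
    have g4 : S * Real.exp (-(59 * κ * A)) ≤ S * (3 * Real.exp (-(η1 * A))) := by
      have := mul_le_mul_of_nonneg_right e2 hSp.le
      linarith
    exact le_of_mul_le_mul_left g4 hSp
  have g3 : Real.exp (η1 * A - 59 * κ * A) ≤ 3 := by
    have := mul_le_mul_of_nonneg_right g2 (Real.exp_pos (η1 * A)).le
    rw [← Real.exp_add, mul_assoc (3 : ℝ), ← Real.exp_add, neg_add_cancel, Real.exp_zero,
      mul_one] at this
    have e : -(59 * κ * A) + η1 * A = η1 * A - 59 * κ * A := by ring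
    rwa [e] at this
  have g4 : 9 / 5 ≤ η1 * A - 59 * κ * A := by
    rw [div_le_iff₀ hη1p] at hAη
    have : κ * A ≤ η1 / 1000 * A := mul_le_mul_of_nonneg_right hκη hAp.le
    linarith
  have g5 : (3 : ℝ) < Real.exp (9 / 5) := by
    have h5 : Real.exp (9 / 5 : ℝ) = Real.exp (9 / 10) * Real.exp (9 / 10) := by
      rw [← Real.exp_add]
      norm_num
    have h6 : (9 / 10 : ℝ) + 1 ≤ Real.exp (9 / 10) := Real.add_one_le_exp _
    have h7 : (19 / 10 : ℝ) * (19 / 10) ≤ Real.exp (9 / 10) * Real.exp (9 / 10) :=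
      mul_le_mul (by linarith) (by linarith) (by norm_num) (by linarith)
    rw [h5]
    linarith
  have g6 := Real.exp_le_exp.mpr g4
  linarith

end Pool.Agent.H914.HN

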